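import Pool.Agent.V8H45.MS.Defs

/-!
# Additivity and bijection invariance of an MS-measure
-/

open FirstOrder FirstOrder.Language Set

namespace Pool.Agent.V8H45.MS

/-- addition of (dimension, measure) pairs -/
noncomputable def padd (a b : ℕ × ℝ) : ℕ × ℝ :=
  if a.1 < b.1 then b else if b.1 < a.1 then a else (a.1, a.2 + b.2)

section

variable {L : FirstOrder.Language.{0, 0}} {M : Type*} [L.Structure M]

theorem definable_singleton {n : ℕ} (c : Fin n → M) :
    (univ : Set M).Definable L ({c} : Set (Fin n → M)) := by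
  have h1 : ∀ i : Fin n, (univ : Set M).Definable L {x : Fin n → M | x i = c i} := by
    intro i
    refine ⟨Term.equal (Term.var i)
      ((L.con (⟨c i, mem_univ _⟩ : (univ : Set M))).term), ?_⟩
    ext x
    simp [Formula.Realize, Term.equal]
  have : ({c} : Set (Fin n → M)) = ⋂ i ∈ (Finset.univ : Finset (Fin n)), {x : Fin n → M | x i = c i} := by
    ext x
    simp [funext_iff]
  rw [this]
  exact Set.definable_biInter_finset h1 _

variable {h : (n : ℕ) → Set (Fin n → M) → ℕ × ℝ}

theorem IsMSFunction.empty (H : IsMSFunction L M h) : h 1 ∅ = (0, 0) := by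
  have := H.finite 1 le_rfl ∅ finite_empty
  simpa using this

theorem padd_zero_left {a : ℕ × ℝ} : padd (0, 0) a = a := by
  unfold padd
  rcases Nat.eq_zero_or_pos a.1 with h | h
  · simp [h, Prod.ext_iff]
  · simp [h]

/-- two-set additivity -/
theorem IsMSFunction.add (H : IsMSFunction L M h) (c1 c2 : Fin 1 → M) (hc : c1 ≠ c2)
    (A B : Set (Fin 1 → M)) (hA : (univ : Set M).Definable L A)
    (hB : (univ : Set M).Definable L B) (hAB : Disjoint A B) (hAn : A.Nonempty)
    (hBn : B.Nonempty) : h 1 (A ∪ B) = padd (h 1 A) (h 1 B) := by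
  classical
  set f : (Fin 1 → M) → (Fin 1 → M) := fun x => if x ∈ A then c1 else c2 with hf
  have hB' : ∀ x ∈ B, x ∉ A := fun x hx hxA => Set.disjoint_left.1 hAB hxA hx
  have hfib1 : {x | x ∈ A ∪ B ∧ f x = c1} = A := by
    ext x
    constructor
    · rintro ⟨hx, h1⟩
      by_contra hxA
      simp only [hf, hxA, if_false] at h1
      exact hc h1.symm
    · intro hx
      exact ⟨Or.inl hx, by simp [hf, hx]⟩
  have hfib2 : {x | x ∈ A ∪ B ∧ f x = c2} = B := by
    ext x
    constructor
    · rintro ⟨hx, h1⟩
      by_contra hxB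
      have hxA : x ∈ A := hx.resolve_right hxB
      simp only [hf, hxA, if_true] at h1
      exact hc h1
    · intro hx
      exact ⟨Or.inr hx, by simp [hf, hB' x hx]⟩
  have himg : f '' (A ∪ B) = {c1, c2} := by
    ext y
    constructor
    · rintro ⟨x, hx, rfl⟩
      by_cases hxA : x ∈ A
      · simp [hf, hxA]
      · simp [hf, hxA]
    · rintro (rfl | rfl)
      · obtain ⟨a, ha⟩ := hAn
        exact ⟨a, Or.inl ha, by simp [hf, ha]⟩
      · obtain ⟨a, ha⟩ := hBn
        exact ⟨a, Or.inr ha, by simp [hf, hB' a ha]⟩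
  have hgraph : (univ : Set M).Definable L (graphOf (A ∪ B) f) := by
    have : graphOf (A ∪ B) f =
        (((fun z : Fin 1 ⊕ Fin 1 → M => z ∘ Sum.inl) ⁻¹' A) ∩
          ((fun z : Fin 1 ⊕ Fin 1 → M => z ∘ Sum.inr) ⁻¹' {c1})) ∪
        (((fun z : Fin 1 ⊕ Fin 1 → M => z ∘ Sum.inl) ⁻¹' B) ∩
          ((fun z : Fin 1 ⊕ Fin 1 → M => z ∘ Sum.inr) ⁻¹' {c2})) := by
      ext z
      simp only [graphOf, mem_ofPred_eq, mem_union, mem_inter_iff, mem_preimage, mem_singleton_iff]
      constructor
      · rintro ⟨h1 | h1, h2⟩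
        · left
          refine ⟨h1, ?_⟩
          rw [← h2]; simp [hf, h1]
        · right
          refine ⟨h1, ?_⟩
          rw [← h2]; simp [hf, hB' _ h1]
      · rintro (⟨h1, h2⟩ | ⟨h1, h2⟩)
        · exact ⟨Or.inl h1, by rw [h2]; simp [hf, h1]⟩
        · exact ⟨Or.inr h1, by rw [h2]; simp [hf, hB' _ h1]⟩
    rw [this]
    exact ((hA.preimage_comp _).inter ((definable_singleton c1).preimage_comp _)).union
      ((hB.preimage_comp _).inter ((definable_singleton c2).preimage_comp _))
  have hY : (univ : Set M).Definable L ({c1, c2} : Set (Fin 1 → M)) :=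
    (definable_singleton c1).union (definable_singleton c2)
  obtain ⟨r, P, v, hPn, -, hPd, hPU, hv, hh⟩ :=
    H.fubini 1 1 le_rfl le_rfl (A ∪ B) {c1, c2} f (hA.union hB) hY hgraph himg
  have hm1 : c1 ∈ ⋃ i, P i := by rw [hPU]; simp
  have hm2 : c2 ∈ ⋃ i, P i := by rw [hPU]; simp
  obtain ⟨i1, hi1⟩ := mem_iUnion.1 hm1
  obtain ⟨i2, hi2⟩ := mem_iUnion.1 hm2
  have hv1 : v i1 = h 1 A := by rw [← hv i1 c1 hi1, hfib1]
  have hv2 : v i2 = h 1 B := by rw [← hv i2 c2 hi2, hfib2]
  have hPsub : ∀ i, P i ⊆ {c1, c2} := fun i => by rw [← hPU]; exact subset_iUnion P i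
  have hall : ∀ i, i = i1 ∨ i = i2 := by
    intro i
    obtain ⟨y, hy⟩ := hPn i
    rcases hPsub i hy with rfl | rfl
    · left
      by_contra hne
      exact Set.disjoint_left.1 (hPd i i1 hne) hy hi1
    · right
      by_contra hne
      exact Set.disjoint_left.1 (hPd i i2 hne) hy hi2
  by_cases h12 : i1 = i2
  · subst h12
    have huniv : (Finset.univ : Finset (Fin r)) = {i1} := by
      ext i
      simp [show i = i1 by rcases hall i with h | h <;> exact h]
    have hP1 : P i1 = {c1, c2} := by
      apply Subset.antisymm (hPsub i1)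
      rintro y (rfl | rfl)
      · exact hi1
      · exact hi2
    have hcard : h 1 (P i1) = (0, 2) := by
      rw [H.finite 1 le_rfl _ (by rw [hP1]; exact (finite_singleton _).insert _), hP1,
        Set.ncard_pair hc]
      simp
    have hABeq : h 1 A = h 1 B := by rw [← hv1, ← hv2]
    rw [hh, huniv]
    simp only [Finset.sup_singleton, hcard, add_zero]
    rw [Finset.filter_true_of_mem (by simp [hcard])]
    simp only [Finset.sum_singleton, hcard, hv1]
    unfold padd
    rw [← hABeq]
    simp
    ring
  · have huniv : (Finset.univ : Finset (Fin r)) = {i1, i2} := by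
      ext i
      simp [hall i]
    have hP1 : P i1 = {c1} := by
      apply Subset.antisymm
      · intro y hy
        rcases hPsub i1 hy with rfl | rfl
        · rfl
        · exact absurd hi2 (fun hi2 => Set.disjoint_left.1 (hPd i1 i2 h12) hy hi2)
      · rintro y rfl; exact hi1
    have hP2 : P i2 = {c2} := by
      apply Subset.antisymm
      · intro y hy
        rcases hPsub i2 hy with rfl | rfl
        · exact absurd hi1 (fun hi1 => Set.disjoint_left.1 (hPd i1 i2 h12) hi1 hy)
        · rfl
      · rintro y rfl; exact hi2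
    have hcard1 : h 1 (P i1) = (0, 1) := by
      rw [H.finite 1 le_rfl _ (by rw [hP1]; exact (finite_singleton _)), hP1]
      simp
    have hcard2 : h 1 (P i2) = (0, 1) := by
      rw [H.finite 1 le_rfl _ (by rw [hP2]; exact (finite_singleton _)), hP2]
      simp
    rw [hh, huniv]
    simp only [Finset.sup_insert, Finset.sup_singleton, hcard1, hcard2, add_zero, hv1, hv2]
    unfold padd
    rcases lt_trichotomy (h 1 A).1 (h 1 B).1 with hlt | heq | hgt
    · have hsup : (h 1 A).1 ⊔ (h 1 B).1 = (h 1 B).1 := sup_eq_right.2 hlt.le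
      rw [if_pos hlt, hsup]
      have : (({i1, i2} : Finset (Fin r)).filter
          (fun i => (v i).1 + (h 1 (P i)).1 = (h 1 B).1)) = {i2} := by
        ext i
        simp only [Finset.mem_filter, Finset.mem_insert, Finset.mem_singleton]
        constructor
        · rintro ⟨rfl | rfl, h3⟩
          · rw [hcard1, hv1] at h3
            simp at h3
            omega
          · rfl
        · rintro rfl
          exact ⟨Or.inr rfl, by rw [hcard2, hv2]; simp⟩
      rw [this]
      simp [hcard2, hv2]
    · have hsup : (h 1 A).1 ⊔ (h 1 B).1 = (h 1 A).1 := sup_eq_left.2 heq.ge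
      rw [if_neg (by omega), if_neg (by omega), hsup]
      have : (({i1, i2} : Finset (Fin r)).filter
          (fun i => (v i).1 + (h 1 (P i)).1 = (h 1 A).1)) = {i1, i2} := by
        ext i
        simp only [Finset.mem_filter, Finset.mem_insert, Finset.mem_singleton]
        constructor
        · exact fun h => h.1
        · rintro (rfl | rfl)
          · exact ⟨Or.inl rfl, by rw [hcard1, hv1]; simp⟩
          · exact ⟨Or.inr rfl, by rw [hcard2, hv2]; simp [heq]⟩
      rw [this, Finset.sum_pair h12]
      simp [hcard1, hcard2, hv1, hv2]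
    · have hsup : (h 1 A).1 ⊔ (h 1 B).1 = (h 1 A).1 := sup_eq_left.2 hgt.le
      rw [if_neg (by omega), if_pos hgt, hsup]
      have : (({i1, i2} : Finset (Fin r)).filter
          (fun i => (v i).1 + (h 1 (P i)).1 = (h 1 A).1)) = {i1} := by
        ext i
        simp only [Finset.mem_filter, Finset.mem_insert, Finset.mem_singleton]
        constructor
        · rintro ⟨rfl | rfl, h3⟩
          · rfl
          · rw [hcard2, hv2] at h3
            simp at h3
            omega
        · rintro rfl
          exact ⟨Or.inl rfl, by rw [hcard1, hv1]; simp⟩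
      rw [this]
      simp [hcard1, hv1]

/-- finite additivity -/
theorem IsMSFunction.sum (H : IsMSFunction L M h) (c1 c2 : Fin 1 → M) (hc : c1 ≠ c2)
    {r : ℕ} (P : Fin r → Set (Fin 1 → M)) (hP : ∀ i, (univ : Set M).Definable L (P i))
    (hd : ∀ i j, i ≠ j → Disjoint (P i) (P j)) (hn : ∀ i, (P i).Nonempty) (s : Finset (Fin r)) :
    h 1 (⋃ i ∈ s, P i) = (s.sup (fun i => (h 1 (P i)).1),
      ∑ i ∈ s.filter (fun i => (h 1 (P i)).1 = s.sup (fun j => (h 1 (P j)).1)), (h 1 (P i)).2) := by
  classical
  induction s using Finset.induction_on with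
  | empty => simp [H.empty]
  | insert a s ha ih =>
    rcases s.eq_empty_or_nonempty with rfl | hs
    · simp [Finset.filter_singleton]
    · have hU : (⋃ i ∈ insert a s, P i) = P a ∪ ⋃ i ∈ s, P i := by
        simp
      rw [hU, H.add c1 c2 hc _ _ (hP a) (Set.definable_biUnion_finset hP s) ?_ (hn a) ?_, ih]
      · set S := s.sup (fun i => (h 1 (P i)).1) with hS
        have hle : ∀ i ∈ s, (h 1 (P i)).1 ≤ S := fun i hi =>
          Finset.le_sup (f := fun i => (h 1 (P i)).1) hi
        unfold padd
        simp only [Finset.sup_insert, ← hS]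
        rcases lt_trichotomy (h 1 (P a)).1 S with hlt | heq | hgt
        · rw [if_pos hlt, sup_eq_right.2 hlt.le, Finset.filter_insert, if_neg hlt.ne]
        · rw [if_neg (by omega), if_neg (by omega), sup_eq_right.2 heq.le, Finset.filter_insert,
            if_pos heq, Finset.sum_insert (by simp [ha])]
          simp [heq]
        · rw [if_neg (by omega), if_pos hgt, sup_eq_left.2 hgt.le, Finset.filter_insert,
            if_pos rfl, Finset.sum_insert (by simp [ha])]
          have : s.filter (fun i => (h 1 (P i)).1 = (h 1 (P a)).1) = ∅ := by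
            apply Finset.filter_false_of_mem
            intro i hi
            have := hle i hi
            omega
          rw [this]
          simp
      · rw [Set.disjoint_iUnion₂_right]
        intro i hi
        exact hd a i (fun h => ha (h ▸ hi))
      · obtain ⟨i, hi⟩ := hs
        obtain ⟨y, hy⟩ := hn i
        exact ⟨y, mem_biUnion (Finset.mem_coe.2 hi) hy⟩

/-- invariance under definable bijections -/
theorem IsMSFunction.bij (H : IsMSFunction L M h) (c1 c2 : Fin 1 → M) (hc : c1 ≠ c2)
    (X Y : Set (Fin 1 → M)) (f : (Fin 1 → M) → (Fin 1 → M))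
    (hX : (univ : Set M).Definable L X) (hY : (univ : Set M).Definable L Y)
    (hg : (univ : Set M).Definable L (graphOf X f)) (himg : f '' X = Y) (hinj : InjOn f X) :
    h 1 X = h 1 Y := by
  classical
  obtain ⟨r, P, v, hPn, hPdef, hPd, hPU, hv, hh⟩ := H.fubini 1 1 le_rfl le_rfl X Y f hX hY hg himg
  have hv1 : ∀ i, v i = (0, 1) := by
    intro i
    obtain ⟨y, hy⟩ := hPn i
    have hyY : y ∈ Y := by rw [← hPU]; exact mem_iUnion.2 ⟨i, hy⟩
    rw [← himg] at hyY
    obtain ⟨x, hx, rfl⟩ := hyY
    rw [← hv i _ hy]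
    have : {x' | x' ∈ X ∧ f x' = f x} = {x} := by
      ext x'
      constructor
      · rintro ⟨h1, h2⟩
        exact hinj h1 hx h2
      · rintro rfl
        exact ⟨hx, rfl⟩
    rw [this, H.finite 1 le_rfl _ (finite_singleton _)]
    simp
  have hsum := H.sum c1 c2 hc P hPdef hPd hPn Finset.univ
  have hYU : (⋃ i ∈ (Finset.univ : Finset (Fin r)), P i) = Y := by rw [← hPU]; simp
  rw [hYU] at hsum
  rw [hh, hsum]
  simp [hv1]

end

end Pool.Agent.V8H45.MS
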