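import Mathlib

/-!
# The language and the theory of the integers with a square-free predicate, and MS-measurability

The definitions follow the problem file `MP_c6a6a6_lc`.
-/

open FirstOrder Set

namespace Pool.Agent.V8H45.MS

/-- Function symbols: `+` (binary), `-` (unary), `1` (constant). -/
inductive SqfFn : ℕ → Type
  | add : SqfFn 2
  | neg : SqfFn 1
  | one : SqfFn 0

/-- Relation symbols: the unary predicates `P_m` (`m ≥ 1`) and `U_{p,l}` (`p` prime, `l : ℤ`). -/
inductive SqfRel : ℕ → Type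
  | P (m : ℕ+) : SqfRel 1
  | U (p : Nat.Primes) (l : ℤ) : SqfRel 1

/-- The language `{+, -, 1, (P_m), (U_{p,l})}`. -/
def LSqf : FirstOrder.Language.{0, 0} := ⟨SqfFn, SqfRel⟩

/-- The `p`-adic valuation of an integer, with value `∞` at `0`. -/
noncomputable def vp (p : ℕ) (a : ℤ) : ℕ∞ := emultiplicity (p : ℤ) a

/-- `P_m = {a : v_p(a) < 2 + v_p(m) for all primes p}`. -/
def PSet (m : ℕ+) : Set ℤ := {a | ∀ p : ℕ, p.Prime → vp p a < 2 + vp p (m : ℤ)}

/-- `U_{p,l} = {a : v_p(a) ≥ l}`; for `l ≤ 0` the condition is empty. -/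
def USet (p : Nat.Primes) (l : ℤ) : Set ℤ := {a | ((l.toNat : ℕ) : ℕ∞) ≤ vp p a}

/-- The integers as a structure for `LSqf`. -/
noncomputable instance intStructure : LSqf.Structure ℤ where
  funMap := fun {n} f =>
    match n, f with
    | _, SqfFn.add => fun x => x 0 + x 1
    | _, SqfFn.neg => fun x => - x 0
    | _, SqfFn.one => fun _ => 1
  RelMap := fun {n} r =>
    match n, r with
    | _, SqfRel.P m => fun x => x 0 ∈ PSet m
    | _, SqfRel.U p l => fun x => x 0 ∈ USet p l

/-- `T_Sqf`: the complete `LSqf`-theory of `ℤ`. -/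
def TSqf : LSqf.Theory := LSqf.completeTheory ℤ

section Measurable

variable (L : FirstOrder.Language.{0, 0}) (M : Type*) [L.Structure M]

/-- The set `φ(M, b)` defined by `φ(x, y)` and the parameter tuple `b`. -/
def inst {L : FirstOrder.Language.{0, 0}} {M : Type*} [L.Structure M] {n m : ℕ}
    (φ : L.Formula (Fin n ⊕ Fin m)) (b : Fin m → M) : Set (Fin n → M) :=
  {a | φ.Realize (Sum.elim a b)}

/-- The graph on `X` of a map `f`, as a set of tuples. -/
def graphOf {M : Type*} {n m : ℕ} (X : Set (Fin n → M)) (f : (Fin n → M) → (Fin m → M)) :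
    Set (Fin n ⊕ Fin m → M) :=
  {z | (z ∘ Sum.inl) ∈ X ∧ f (z ∘ Sum.inl) = z ∘ Sum.inr}

/-- `h` witnesses MS-measurability of `M` (Macpherson-Steinhorn): `h n` is the value function on
the parameter-definable subsets of `M^n`, `n ≥ 1` (values at other sets are irrelevant). -/
structure IsMSFunction (h : (n : ℕ) → Set (Fin n → M) → ℕ × ℝ) : Prop where
  /-- the values lie in `(ℕ × ℝ_{>0}) ∪ {(0,0)}` -/
  values : ∀ n, 1 ≤ n → ∀ X : Set (Fin n → M), (univ : Set M).Definable L X →
    0 < (h n X).2 ∨ h n X = (0, 0)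
  /-- (1) in every definable family only finitely many values occur, and the set of parameters
  giving a particular value is `∅`-definable -/
  uniform : ∀ n, 1 ≤ n → ∀ m (φ : L.Formula (Fin n ⊕ Fin m)),
    (range fun b : Fin m → M => h n (inst φ b)).Finite ∧
    ∀ v ∈ range (fun b : Fin m → M => h n (inst φ b)),
      (∅ : Set M).Definable L {b : Fin m → M | h n (inst φ b) = v}
  /-- (2) finite sets -/
  finite : ∀ n, 1 ≤ n → ∀ X : Set (Fin n → M), X.Finite → h n X = (0, (X.ncard : ℝ))
  /-- (3) Fubini -/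
  fubini : ∀ n m, 1 ≤ n → 1 ≤ m → ∀ (X : Set (Fin n → M)) (Y : Set (Fin m → M))
    (f : (Fin n → M) → (Fin m → M)),
    (univ : Set M).Definable L X → (univ : Set M).Definable L Y →
    (univ : Set M).Definable L (graphOf X f) → f '' X = Y →
    ∃ (r : ℕ) (P : Fin r → Set (Fin m → M)) (v : Fin r → ℕ × ℝ),
      (∀ i, (P i).Nonempty) ∧ (∀ i, (univ : Set M).Definable L (P i)) ∧
      (∀ i j, i ≠ j → Disjoint (P i) (P j)) ∧ (⋃ i, P i) = Y ∧
      (∀ i, ∀ y ∈ P i, h n {x | x ∈ X ∧ f x = y} = v i) ∧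
      h n X = (Finset.univ.sup (fun i => (v i).1 + (h m (P i)).1),
        ∑ i ∈ Finset.univ.filter (fun i => (v i).1 + (h m (P i)).1 =
            Finset.univ.sup (fun j => (v j).1 + (h m (P j)).1)),
          (v i).2 * (h m (P i)).2)

/-- `M` is MS-measurable. -/
def MSMeasurable : Prop := ∃ h : (n : ℕ) → Set (Fin n → M) → ℕ × ℝ, IsMSFunction L M h

end Measurable

end Pool.Agent.V8H45.MS
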